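import Mathlib
import Pool.Agent.Lib.MP_7d928b_an.Osc

/-!
# Bounded Bergman space extremal functions have kernels in BMOA

For every `1 < p < ∞`: if the `A^p` extremal function `F` of a nonzero kernel `k ∈ A^q` is bounded,
then `k ∈ BMOA`.  This is the affirmative answer to Q2.
-/

namespace Pool.Agent.Results.MP_7d928b_an.BoundedExtremalKernelBMOA

open MeasureTheory Set Filter Topology Metric
open scoped ComplexConjugate

/-- Membership in the Bergman space `A^r` of the unit disc (area measure). -/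
def MemBergman (r : ℝ) (f : ℂ → ℂ) : Prop :=
  DifferentiableOn ℂ f (ball 0 1) ∧ IntegrableOn (fun z => ‖f z‖ ^ r) (ball 0 1) volume

/-- `F` is the `A^p` extremal function for the kernel `k`: it has `A^p` norm one and maximises
`Re ∫ f conj(k) dA` among all `f ∈ A^p` of norm one. -/
def IsExtremal (p : ℝ) (k F : ℂ → ℂ) : Prop :=
  MemBergman p F ∧ ∫ z in ball (0 : ℂ) 1, ‖F z‖ ^ p = 1 ∧
    ∀ f : ℂ → ℂ, MemBergman p f → ∫ z in ball (0 : ℂ) 1, ‖f z‖ ^ p = 1 →
      (∫ z in ball (0 : ℂ) 1, f z * conj (k z)).re ≤ (∫ z in ball (0 : ℂ) 1, F z * conj (k z)).re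

/-- `g` belongs to `H^∞` of the unit disc. -/
def MemHInf (g : ℂ → ℂ) : Prop :=
  DifferentiableOn ℂ g (ball 0 1) ∧ ∃ M : ℝ, ∀ z ∈ ball (0 : ℂ) 1, ‖g z‖ ≤ M

/-- `φ` (a `2π`-periodic function, square integrable over a period) is the boundary function of
`g ∈ H²`: the dilates `θ ↦ g (r e^{iθ})` converge to `φ` in `L²` as `r → 1-`. -/
def IsBoundaryFunction (g : ℂ → ℂ) (φ : ℝ → ℂ) : Prop :=
  Function.Periodic φ (2 * Real.pi) ∧
    MemLp φ 2 (volume.restrict (Ioc (-Real.pi) Real.pi)) ∧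
    Tendsto (fun r : ℝ => ∫ θ in (-Real.pi)..Real.pi,
      ‖g ((r : ℂ) * Complex.exp (θ * Complex.I)) - φ θ‖ ^ 2) (𝓝[<] 1) (𝓝 0)

/-- Bounded mean oscillation on the circle: the mean oscillations over all arcs are bounded. -/
def HasBMO (φ : ℝ → ℂ) : Prop :=
  ∃ C : ℝ, ∀ a b : ℝ, a < b → b - a ≤ 2 * Real.pi →
    (b - a)⁻¹ * ∫ θ in a..b, ‖φ θ - ((b - a)⁻¹ : ℝ) • ∫ t in a..b, φ t‖ ≤ C

/-- `g ∈ BMOA`: `g` is analytic in the disc and its dilates converge in `L²` of the circle to a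
boundary function (that is, `g ∈ H²`) which has bounded mean oscillation. -/
def MemBMOA (g : ℂ → ℂ) : Prop :=
  DifferentiableOn ℂ g (ball 0 1) ∧ ∃ φ : ℝ → ℂ, IsBoundaryFunction g φ ∧ HasBMO φ

open Pool.Agent.Lib.MP_7d928b_an in
/-- For every `1 < p < ∞`, if the `A^p` extremal function `F` of a nonzero kernel `k ∈ A^q`,
`q = p / (p - 1)`, lies in `H^∞`, then `k` lies in `BMOA`. -/
theorem result (p : ℝ) (hp : 1 < p) (k F : ℂ → ℂ) (hk : MemBergman (p / (p - 1)) k)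
    (_hk0 : ∃ z ∈ ball (0 : ℂ) 1, k z ≠ 0) (hF : IsExtremal p k F) (hb : MemHInf F) :
    MemBMOA k := by
  obtain ⟨M, hM⟩ := hb.2
  obtain ⟨⟨hFd, _⟩, hF1, hext⟩ := hF
  obtain ⟨hkd, hkq⟩ := hk
  have hq : 1 < p / (p - 1) := by rw [one_lt_div (by linarith)]; linarith
  have hki : IntegrableOn k (ball 0 1) := by
    have : IsFiniteMeasure (volume.restrict (ball (0 : ℂ) 1)) :=
      ⟨by rw [Measure.restrict_apply_univ]; exact measure_ball_lt_top⟩
    refine Integrable.mono ((integrable_const (1 : ℝ)).add hkq)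
      (hkd.continuousOn.aestronglyMeasurable measurableSet_ball) (Eventually.of_forall fun z => ?_)
    have h0 : 0 ≤ ‖k z‖ ^ (p / (p - 1)) := Real.rpow_nonneg (norm_nonneg _) _
    rw [Pi.add_apply, Real.norm_eq_abs, abs_of_nonneg (by linarith)]
    rcases le_total ‖k z‖ 1 with h | h
    · linarith
    · have := Real.rpow_le_rpow_of_exponent_le h hq.le
      rw [Real.rpow_one] at this
      linarith
  have hPB := pairing_bound hp hFd hM hkd hki hF1 (fun g hg hgi hg1 => hext g ⟨hg, hgi⟩ hg1)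
  obtain ⟨φ, hφ1, hφ2, hφ3⟩ := exists_boundary hkd (summable_sq hkd hPB)
  exact ⟨hkd, φ, ⟨hφ1, hφ2, hφ3⟩, _, fun a b hab hab2 => bmo_bound hkd hPB hφ1 hφ2 hφ3 hab hab2⟩

end Pool.Agent.Results.MP_7d928b_an.BoundedExtremalKernelBMOA
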